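import Mathlib

set_option autoImplicit false

namespace Pool.Agent.EdgePan

/-- Adjacency `p < q` in the double fan on offsets `0, …, 33`: the path `0 - 1 - … - 33`,
the hub `16` joined to `0, …, 14`, the hub `17` joined to `19, …, 33`, and the two
edges `15 - 17` and `16 - 18`. -/
def adjLt (p q : ℕ) : Bool :=
  decide (q ≤ 33) &&
    ((q == p + 1) || ((q == 16) && decide (p ≤ 14)) || ((p == 15) && (q == 17)) ||
      ((p == 16) && (q == 18)) || ((p == 17) && decide (19 ≤ q)))

/-- Symmetric adjacency in the double fan. -/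
def adjS (p q : ℕ) : Bool := adjLt p q || adjLt q p

/-- The list of the 65 edges of the double fan, as pairs `(p, q)` with `p < q`. -/
def edgesS : List (ℕ × ℕ) :=
  ((List.range 34).flatMap fun p => (List.range 34).map fun q => (p, q)).filter
    fun e => adjLt e.1 e.2

def rg (a b : ℕ) : List ℕ := List.range' a (b - a)

def T1 (i j k : ℕ) : List ℕ := rg 0 (i + 1) ++ [16] ++ rg j 16 ++ [17] ++ rg k 33
def T2 (i k l : ℕ) : List ℕ := rg 0 (i + 1) ++ [16] ++ rg 18 (k + 1) ++ [17] ++ rg l 33

/-- smallest length used for through-paths of the edge `(p, q)` of the left half -/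
def lamL (p q : ℕ) : ℕ :=
  if q ≤ 15 then p + 4 else
  if q = 16 then (if p = 0 then 3 else 19 - p) else
  if p = 15 then 4 else 3

def lam (p q : ℕ) : ℕ :=
  if q ≤ 16 ∨ (p = 15 ∧ q = 17) ∨ (p = 16 ∧ q = 17) then lamL p q else lamL (33 - q) (33 - p)

/-- parameters of a through path of the left half edge `(p, q)` with `l` vertices -/
def parL (p q l : ℕ) : ℕ × ℕ × ℕ :=
  if q ≤ 15 then
    let z := l - (p + 4)
    let x := min z 15
    (p + 1, 16 - (z - x), 33 - x)
  else if q = 16 then
    if p = 0 then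
      let z := l - 3
      let x := min z 15
      (0, 16 - (z - x), 33 - x)
    else
      let z := l - (19 - p)
      let x := min z 15
      (z - x, p, 33 - x)
  else if p = 15 then
    let z := l - 4
    let x := min z 15
    (z - x, 15, 33 - x)
  else
    let z := l - 3
    let x := min z 15
    (z - x, 16, 33 - x)

def pathFor (p q l : ℕ) : List ℕ :=
  if q ≤ 16 ∨ (p = 15 ∧ q = 17) ∨ (p = 16 ∧ q = 17) then
    let r := parL p q l
    T1 r.1 r.2.1 r.2.2
  else
    let r := parL (33 - q) (33 - p) l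
    T2 (33 - r.2.2) (33 - r.2.1) (33 - r.1)

def cycL (p q L : ℕ) : List ℕ :=
  if q ≤ 15 then
    if L ≤ 17 then
      let s := min p (17 - L)
      [16] ++ rg s (s + L - 1)
    else if L = 18 then [16] ++ rg 0 16 ++ [17]
    else [16] ++ rg 0 16 ++ [17] ++ (rg 18 L).reverse
  else if q = 16 then
    if L ≤ 17 - p then [16] ++ rg p (p + L - 1)
    else if L = 18 - p then [16] ++ rg p 16 ++ [17]
    else [16] ++ rg p 16 ++ [17] ++ (rg 18 (L + p)).reverse
  else
    if L ≤ 18 then [16] ++ rg (18 - L) 16 ++ [17]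
    else [16] ++ rg 0 16 ++ [17, 18]

def cycFor (p q L : ℕ) : List ℕ :=
  if q ≤ 16 ∨ (p = 15 ∧ q = 17) ∨ (p = 16 ∧ q = 17) then cycL p q L
  else (cycL (33 - q) (33 - p) L).map (fun x => 33 - x)

/-- paths from `0` to `16` in the double fan -/
def hubPath (v : ℕ) : List ℕ :=
  if v ≤ 17 then rg 0 (v - 1) ++ [16]
  else if v = 18 then rg 0 16 ++ [17, 16]
  else rg 0 16 ++ [17] ++ (rg 18 v).reverse ++ [16]

/-- nodup check with a bit mask -/
def ndB : List ℕ → ℕ → Bool
  | [], _ => true
  | x :: l, m => !(m.testBit x) && ndB l (m ||| (1 <<< x))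

/-- chain check -/
def chB : List ℕ → Bool
  | [] => true
  | [_] => true
  | x :: y :: l => adjS x y && chB (y :: l)

/-- the pair `p, q` occurs consecutively in one of the two orders -/
def inB (p q : ℕ) : List ℕ → Bool
  | [] => false
  | [_] => false
  | x :: y :: l => ((x == p) && (y == q)) || ((x == q) && (y == p)) || inB p q (y :: l)

def headB (l : List ℕ) : ℕ := l.headD 100

def pathOK (p q l : ℕ) : Bool :=
  let P := pathFor p q l
  ndB P 0 && chB (P ++ [33]) && (P.length == l) && (headB P == 0) && P.all (fun x => decide (x < 33)) &&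
    inB p q (P ++ [33])

def cycOK (p q L : ℕ) : Bool :=
  let P := cycFor p q L
  ndB P 0 && chB (P ++ [headB P]) && (P.length == L) && P.all (fun x => decide (x < 34)) &&
    inB p q (P ++ [headB P])

def hubOK (v : ℕ) : Bool :=
  let P := hubPath v
  ndB P 0 && chB P && (P.length == v) && (headB P == 0) && (P.getLastD 100 == 16) &&
    P.all (fun x => decide (x < 34))

theorem card_edgesS : edgesS.length = 65 := by decide +kernel

theorem pathOK_all : ∀ e ∈ edgesS, ∀ l < 34, lam e.1 e.2 ≤ l → pathOK e.1 e.2 l = true := by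
  decide +kernel

theorem cycOK_all : ∀ e ∈ edgesS, ∀ L < 50, 3 ≤ L → L ≤ lam e.1 e.2 + 15 →
    cycOK e.1 e.2 L = true := by
  decide +kernel

theorem hubOK_all : ∀ v < 35, 2 ≤ v → hubOK v = true := by
  decide +kernel

theorem lam_bounds : ∀ e ∈ edgesS, 3 ≤ lam e.1 e.2 ∧ lam e.1 e.2 ≤ 18 := by
  decide +kernel

end Pool.Agent.EdgePan
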