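import Mathlib
import Pool.Agent.EdgePan.Strip

set_option autoImplicit false

namespace Pool.Agent.EdgePan

theorem ndB_spec : ∀ (l : List ℕ) (m : ℕ), ndB l m = true →
    l.Nodup ∧ ∀ x ∈ l, m.testBit x = false
  | [], _, _ => by simp
  | x :: l, m, h => by
    rw [ndB, Bool.and_eq_true] at h
    obtain ⟨h1, h2⟩ := h
    obtain ⟨h3, h4⟩ := ndB_spec l _ h2
    have h5 : ∀ y ∈ l, m.testBit y = false ∧ y ≠ x := by
      intro y hy
      have := h4 y hy
      rw [Nat.testBit_or, Bool.or_eq_false_iff] at this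
      refine ⟨this.1, ?_⟩
      rintro rfl
      have h6 := this.2
      rw [Nat.testBit_shiftLeft] at h6
      simp at h6
    refine ⟨?_, ?_⟩
    · rw [List.nodup_cons]
      exact ⟨fun hx => (h5 x hx).2 rfl, h3⟩
    · intro y hy
      rcases List.mem_cons.1 hy with rfl | hy
      · simpa using h1
      · exact (h5 y hy).1

theorem chB_spec : ∀ (l : List ℕ), chB l = true → l.IsChain (fun p q => adjS p q = true)
  | [], _ => List.IsChain.nil
  | [_], _ => List.IsChain.singleton _
  | x :: y :: l, h => by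
    rw [chB, Bool.and_eq_true] at h
    exact List.IsChain.cons_cons h.1 (chB_spec (y :: l) h.2)

/-- `p, q` are consecutive in the list, in one of the two orders. -/
def PairIn {α : Type*} (p q : α) (l : List α) : Prop := [p, q] <:+: l ∨ [q, p] <:+: l

theorem inB_spec (p q : ℕ) : ∀ (l : List ℕ), inB p q l = true → PairIn p q l
  | [], h => by simp [inB] at h
  | [_], h => by simp [inB] at h
  | x :: y :: l, h => by
    rw [inB, Bool.or_eq_true, Bool.or_eq_true, Bool.and_eq_true, Bool.and_eq_true] at h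
    rcases h with (⟨h1, h2⟩ | ⟨h1, h2⟩) | h
    · left
      rw [beq_iff_eq] at h1 h2
      subst h1; subst h2
      exact ⟨[], l, by simp⟩
    · right
      rw [beq_iff_eq] at h1 h2
      subst h1; subst h2
      exact ⟨[], l, by simp⟩
    · rcases inB_spec p q (y :: l) h with h | h
      · left; exact h.trans (List.suffix_cons _ _).isInfix
      · right; exact h.trans (List.suffix_cons _ _).isInfix

theorem PairIn.mono {α : Type*} {p q : α} {l l' : List α} (h : PairIn p q l) (hl : l <:+: l') :
    PairIn p q l' := by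
  rcases h with h | h
  · exact Or.inl (h.trans hl)
  · exact Or.inr (h.trans hl)

theorem PairIn.map {α β : Type*} (f : α → β) {p q : α} {l : List α} (h : PairIn p q l) :
    PairIn (f p) (f q) (l.map f) := by
  rcases h with h | h
  · left
    have := h.map f
    simpa using this
  · right
    have := h.map f
    simpa using this

/-- An open path: the positions of `l` followed by `b` form a path from `a` to `b`, all
positions of `l` being in `[a, b)`. -/
structure OP (R : ℕ → ℕ → Prop) (a b : ℕ) (l : List ℕ) : Prop where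
  chain : (l ++ [b]).IsChain R
  head : (l ++ [b]).head? = some a
  nodup : l.Nodup
  mem : ∀ x ∈ l, a ≤ x ∧ x < b

theorem OP.nil (R : ℕ → ℕ → Prop) (a : ℕ) : OP R a a [] :=
  ⟨by simp, by simp, by simp, by simp⟩

theorem OP.le {R : ℕ → ℕ → Prop} {a b : ℕ} {l : List ℕ} (h : OP R a b l) : a ≤ b := by
  cases l with
  | nil => have := h.head; simp at this; omega
  | cons x l => have := h.mem x (by simp); omega

theorem OP.append {R : ℕ → ℕ → Prop} {a b c : ℕ} {l₁ l₂ : List ℕ} (h₁ : OP R a b l₁)
    (h₂ : OP R b c l₂) : OP R a c (l₁ ++ l₂) := by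
  have hbc := h₂.le
  have hab := h₁.le
  obtain ⟨t, ht⟩ : ∃ t, l₂ ++ [c] = b :: t := by
    have := h₂.head
    cases h : l₂ ++ [c] with
    | nil => simp at h
    | cons x t => rw [h] at this; simp at this; exact ⟨t, by rw [this]⟩
  refine ⟨?_, ?_, ?_, ?_⟩
  · rw [List.append_assoc, ht]
    have h1 := h₁.chain
    have h2 := h₂.chain
    rw [ht] at h2
    have := List.IsChain.append_overlap (l₁ := l₁) (l₂ := [b]) (l₃ := t) h1 (by simpa using h2)
      (by simp)
    simpa using this
  · rw [List.append_assoc, ht]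
    have := h₁.head
    cases l₁ with
    | nil => simpa using this
    | cons x l => simpa using this
  · rw [List.nodup_append]
    refine ⟨h₁.nodup, h₂.nodup, ?_⟩
    intro x hx y hy
    have := h₁.mem x hx
    have := h₂.mem y hy
    omega
  · intro x hx
    rcases List.mem_append.1 hx with hx | hx
    · have := h₁.mem x hx; omega
    · have := h₂.mem x hx; omega

/-- rim adjacency on positions -/
def Rr (i j : ℕ) : Prop := ∃ s p q, adjS p q = true ∧ i = 33 * s + p ∧ j = 33 * s + q

theorem adjS_symm {p q : ℕ} (h : adjS p q = true) : adjS q p = true := by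
  unfold adjS at *
  rw [Bool.or_comm]; exact h

theorem adjLt_lt {p q : ℕ} (h : adjLt p q = true) : p < q ∧ q ≤ 33 := by
  unfold adjLt at h
  simp only [Bool.and_eq_true, Bool.or_eq_true, decide_eq_true_eq, beq_iff_eq] at h
  omega

theorem adjS_bd {p q : ℕ} (h : adjS p q = true) : p ≠ q ∧ p ≤ 33 ∧ q ≤ 33 := by
  unfold adjS at h
  rw [Bool.or_eq_true] at h
  rcases h with h | h
  · have := adjLt_lt h; omega
  · have := adjLt_lt h; omega

theorem Rr_symm {i j : ℕ} (h : Rr i j) : Rr j i := by
  obtain ⟨s, p, q, h, h1, h2⟩ := h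
  exact ⟨s, q, p, adjS_symm h, h2, h1⟩

theorem mem_edgesS {p q : ℕ} (h : adjLt p q = true) : (p, q) ∈ edgesS := by
  have := adjLt_lt h
  unfold edgesS
  rw [List.mem_filter]
  refine ⟨?_, h⟩
  rw [List.mem_flatMap]
  exact ⟨p, by rw [List.mem_range]; omega, by
    rw [List.mem_map]; exact ⟨q, by rw [List.mem_range]; omega, rfl⟩⟩

/-- Shifting a list of offsets to strip `s`. -/
def sh (s : ℕ) (l : List ℕ) : List ℕ := l.map (fun x => 33 * s + x)

theorem sh_nodup {s : ℕ} {l : List ℕ} (h : l.Nodup) : (sh s l).Nodup :=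
  h.map (fun _ _ h => by simpa using h)

theorem sh_chain {s : ℕ} {l : List ℕ} (h : l.IsChain (fun p q => adjS p q = true)) :
    (sh s l).IsChain Rr := by
  unfold sh
  rw [List.isChain_map]
  exact h.imp (fun p q hpq => ⟨s, p, q, hpq, rfl, rfl⟩)

theorem head?_of_headB {l : List ℕ} (h : headB l = 0) : l.head? = some 0 := by
  cases l with
  | nil => simp [headB] at h
  | cons x l => simp [headB] at h; simp [h]

/-- through paths in strip `s` -/
theorem exists_through {p q : ℕ} (h : adjLt p q = true) (s l : ℕ) (hl : lam p q ≤ l) (hl' : l ≤ 33) :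
    ∃ P, OP Rr (33 * s) (33 * (s + 1)) P ∧ P.length = l ∧
      PairIn (33 * s + p) (33 * s + q) (P ++ [33 * (s + 1)]) := by
  have h1 := pathOK_all (p, q) (mem_edgesS h) l (by omega) hl
  unfold pathOK at h1
  simp only [Bool.and_eq_true, beq_iff_eq, List.all_eq_true, decide_eq_true_eq] at h1
  obtain ⟨⟨⟨⟨⟨h1, h2⟩, h3⟩, h4⟩, h5⟩, h6⟩ := h1
  have e33 : sh s (pathFor p q l ++ [33]) = sh s (pathFor p q l) ++ [33 * (s + 1)] := by
    simp [sh]; ring
  refine ⟨sh s (pathFor p q l), ⟨?_, ?_, ?_, ?_⟩, ?_, ?_⟩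
  · rw [← e33]
    exact sh_chain (chB_spec _ h2)
  · rw [← e33]
    have := head?_of_headB h4
    unfold sh
    rw [List.head?_map, List.head?_append, this]
    simp
  · exact sh_nodup (ndB_spec _ _ h1).1
  · intro x hx
    unfold sh at hx
    rw [List.mem_map] at hx
    obtain ⟨y, hy, rfl⟩ := hx
    have := h5 y hy
    omega
  · unfold sh; rw [List.length_map]; exact h3
  · rw [← e33]
    exact (inB_spec _ _ _ h6).map (fun x => 33 * s + x)

theorem exists_strip (s l : ℕ) (hl : 3 ≤ l) (hl' : l ≤ 33) :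
    ∃ P, OP Rr (33 * s) (33 * (s + 1)) P ∧ P.length = l := by
  obtain ⟨P, h1, h2, -⟩ := exists_through (p := 0) (q := 16) (by decide) s l
    (by simpa [lam, lamL] using hl) hl'
  exact ⟨P, h1, h2⟩

/-- paths through `t` consecutive strips, of every length -/
theorem exists_strips (s t : ℕ) : ∀ l, 3 * t ≤ l → l ≤ 33 * t →
    ∃ P, OP Rr (33 * s) (33 * (s + t)) P ∧ P.length = l := by
  induction t with
  | zero =>
    intro l h1 h2
    have : l = 0 := by omega
    subst this
    exact ⟨[], OP.nil _ _, rfl⟩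
  | succ t ih =>
    intro l h1 h2
    obtain ⟨P, hP, hPl⟩ := ih (l - max 3 (l - 33 * t)) (by omega) (by omega)
    obtain ⟨Q, hQ, hQl⟩ := exists_strip (s + t) (max 3 (l - 33 * t)) (by omega) (by omega)
    refine ⟨P ++ Q, hP.append (by simpa [Nat.add_assoc] using hQ), ?_⟩
    rw [List.length_append, hPl, hQl]
    omega

/-- inner cycles in strip `s` -/
theorem exists_inner {p q : ℕ} (h : adjLt p q = true) (s L : ℕ) (h3 : 3 ≤ L)
    (hL : L ≤ lam p q + 15) :
    ∃ a t, (sh s (a :: t) ++ [33 * s + a]).IsChain Rr ∧ (sh s (a :: t)).Nodup ∧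
      (a :: t).length = L ∧ (∀ x ∈ a :: t, x ≤ 33) ∧
      PairIn (33 * s + p) (33 * s + q) (sh s (a :: t) ++ [33 * s + a]) := by
  have hb := lam_bounds (p, q) (mem_edgesS h)
  have h1 := cycOK_all (p, q) (mem_edgesS h) L (by simp only at hb; omega) h3 hL
  unfold cycOK at h1
  simp only [Bool.and_eq_true, beq_iff_eq, List.all_eq_true, decide_eq_true_eq] at h1
  obtain ⟨⟨⟨⟨h1, h2⟩, h3'⟩, h4⟩, h5⟩ := h1
  cases hc : cycFor p q L with
  | nil => rw [hc] at h3'; simp at h3'; omega
  | cons a t =>
    rw [hc] at h1 h2 h3' h4 h5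
    have e : sh s (a :: t) ++ [33 * s + a] = sh s ((a :: t) ++ [headB (a :: t)]) := by
      simp [sh, headB]
    refine ⟨a, t, ?_, ?_, h3', ?_, ?_⟩
    · rw [e]; exact sh_chain (chB_spec _ h2)
    · exact sh_nodup (ndB_spec _ _ h1).1
    · intro x hx; have := h4 x hx; omega
    · rw [e]; exact (inB_spec _ _ _ h5).map (fun x => 33 * s + x)

/-- paths from offset `0` to offset `16` in strip `s` -/
theorem exists_hubPath (s v : ℕ) (h2 : 2 ≤ v) (hv : v ≤ 34) :
    ∃ t : List ℕ, (33 * s :: t).IsChain Rr ∧ (33 * s :: t).Nodup ∧ (33 * s :: t).length = v ∧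
      (∀ x ∈ 33 * s :: t, 33 * s ≤ x ∧ x ≤ 33 * s + 33) ∧
      (33 * s :: t).getLast? = some (33 * s + 16) := by
  have h1 := hubOK_all v (by omega) h2
  unfold hubOK at h1
  simp only [Bool.and_eq_true, beq_iff_eq, List.all_eq_true, decide_eq_true_eq] at h1
  obtain ⟨⟨⟨⟨⟨h1, h2⟩, h3⟩, h4⟩, h5⟩, h6⟩ := h1
  cases hc : hubPath v with
  | nil => rw [hc] at h4; simp [headB] at h4
  | cons a t =>
    rw [hc] at h1 h2 h3 h4 h5 h6
    have ha : a = 0 := by simpa [headB] using h4
    subst ha
    refine ⟨sh s t, ?_, ?_, ?_, ?_, ?_⟩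
    · have := sh_chain (s := s) (chB_spec _ h2)
      simpa [sh] using this
    · have := sh_nodup (s := s) (ndB_spec _ _ h1).1
      simpa [sh] using this
    · rw [← h3]; simp [sh]
    · intro x hx
      have hx' : x ∈ sh s (0 :: t) := by simpa [sh] using hx
      unfold sh at hx'
      rw [List.mem_map] at hx'
      obtain ⟨y, hy, rfl⟩ := hx'
      have := h6 y hy
      omega
    · have e : 33 * s :: sh s t = sh s (0 :: t) := by simp [sh]
      rw [e]
      unfold sh
      rw [List.getLast?_map]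
      have : (0 :: t).getLast? = some 16 := by
        rw [List.getLastD_eq_getLast?] at h5
        cases h : (0 :: t).getLast? with
        | none => simp at h
        | some y => rw [h] at h5; simp at h5; rw [h5]
      rw [this]; simp

end Pool.Agent.EdgePan
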