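import Mathlib
import Pool.Agent.EdgePan.Lists

set_option autoImplicit false

namespace Pool.Agent.EdgePan

open SimpleGraph

/-- `x y` lie on a common cycle of length `L` as an edge of it. -/
def Cyc {V : Type*} (G : SimpleGraph V) (L : ℕ) (x y : V) : Prop :=
  ∃ (w : V) (c : G.Walk w w), c.IsCycle ∧ c.length = L ∧ s(x, y) ∈ c.edges

theorem Cyc.symm {V : Type*} {G : SimpleGraph V} {L : ℕ} {x y : V} (h : Cyc G L x y) :
    Cyc G L y x := by
  obtain ⟨w, c, h1, h2, h3⟩ := h
  exact ⟨w, c, h1, h2, by rwa [Sym2.eq_swap]⟩

theorem exists_walk {V : Type*} {G : SimpleGraph V} : ∀ (t : List V) (a b : V),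
    (a :: t).IsChain G.Adj → (a :: t).getLast? = some b →
    ∃ p : G.Walk a b, p.support = a :: t
  | [], a, b, _, h => by
    simp only [List.getLast?_singleton, Option.some.injEq] at h
    subst h
    exact ⟨Walk.nil, rfl⟩
  | x :: t, a, b, hc, h => by
    rw [List.isChain_cons_cons] at hc
    obtain ⟨p, hp⟩ := exists_walk t x b hc.2 (by simpa [List.getLast?_cons_cons] using h)
    exact ⟨Walk.cons hc.1 p, by rw [Walk.support_cons, hp]⟩

theorem cyc_of_closed {V : Type*} {G : SimpleGraph V} (a : V) (t : List V)
    (hc : (a :: t ++ [a]).IsChain G.Adj) (hn : (a :: t).Nodup) (hl : 2 ≤ t.length) {u v : V}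
    (h : PairIn u v (a :: t ++ [a])) : Cyc G (t.length + 1) u v := by
  obtain ⟨c, hs⟩ := exists_walk (t ++ [a]) a a hc (by simp [List.getLast?_cons])
  have hlen : c.length = t.length + 1 := by
    have := congrArg List.length hs
    rw [Walk.length_support] at this
    simp at this
    omega
  refine ⟨a, c, ?_, hlen, ?_⟩
  · rw [Walk.isCycle_iff_isPath_tail_and_le_length]
    refine ⟨?_, by omega⟩
    have hnil : ¬ c.Nil := by
      intro h0
      have := Walk.length_eq_zero_iff.2 h0
      omega
    apply Walk.IsPath.mk'
    rw [Walk.support_tail_of_not_nil _ hnil, hs]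
    simp only [List.tail_cons]
    rw [List.nodup_cons] at hn
    rw [List.nodup_append]
    refine ⟨hn.2, by simp, ?_⟩
    intro x hx y hy
    simp only [List.mem_singleton] at hy
    subst hy
    rintro rfl
    exact hn.1 hx
  · rw [← Walk.infix_support_iff_mem_edges, hs]
    exact h

/-- hub adjacency: positions joined to the hub -/
def Hb (i : ℕ) : Prop := ∃ g, i = 99 * g ∨ i = 99 * g + 16

def RO : Option ℕ → Option ℕ → Prop
  | none, none => False
  | none, some i => Hb i
  | some i, none => Hb i
  | some i, some j => Rr i j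

theorem RO_symm {a b : Option ℕ} (h : RO a b) : RO b a := by
  cases a <;> cases b
  · exact h
  · exact h
  · exact h
  · exact Rr_symm h

/-- projection of positions to the vertices -/
def pr (K : ℕ) (x : Option ℕ) : Option (ZMod (99 * K)) :=
  x.map (fun i : ℕ => (i : ZMod (99 * K)))

/-- The graph: `3 K` double fans in a ring, every third one joined to the hub `none`. -/
def GK (K : ℕ) : SimpleGraph (Option (ZMod (99 * K))) where
  Adj x y := x ≠ y ∧ ∃ a b, RO a b ∧ pr K a = x ∧ pr K b = y
  symm := ⟨fun _ _ ⟨h1, a, b, h2, h3, h4⟩ => ⟨h1.symm, b, a, RO_symm h2, h4, h3⟩⟩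
  loopless := ⟨fun _ h => h.1 rfl⟩

theorem cast_inj {K lo i j : ℕ} (hi : lo ≤ i ∧ i < lo + 99 * K) (hj : lo ≤ j ∧ j < lo + 99 * K)
    (h : (i : ZMod (99 * K)) = (j : ZMod (99 * K))) : i = j := by
  rw [ZMod.natCast_eq_natCast_iff] at h
  obtain ⟨i', rfl⟩ := Nat.exists_eq_add_of_le hi.1
  obtain ⟨j', rfl⟩ := Nat.exists_eq_add_of_le hj.1
  have h' := Nat.ModEq.add_left_cancel' lo h
  have := Nat.ModEq.eq_of_lt_of_lt h' (by omega) (by omega)
  omega

theorem pr_some_eq {K i j : ℕ} : pr K (some i) = pr K (some j) ↔
    (i : ZMod (99 * K)) = (j : ZMod (99 * K)) := by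
  simp [pr]

theorem adj_of_RO {K : ℕ} (hK : 1 ≤ K) {a b : Option ℕ} (h : RO a b) :
    (GK K).Adj (pr K a) (pr K b) := by
  refine ⟨?_, a, b, h, rfl, rfl⟩
  cases a with
  | none =>
    cases b with
    | none => exact absurd h (by simp [RO])
    | some j => simp [pr]
  | some i =>
    cases b with
    | none => simp [pr]
    | some j =>
      intro he
      rw [pr_some_eq] at he
      obtain ⟨s, p, q, h1, h2, h3⟩ := h
      have h4 := adjS_bd h1
      have := cast_inj (K := K) (lo := 33 * s) (i := i) (j := j) (by omega) (by omega) he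
      omega

theorem nodup_map_pr {K : ℕ} (lo : ℕ) (l : List (Option ℕ)) (hn : l.Nodup)
    (hm : ∀ i, some i ∈ l → lo ≤ i ∧ i < lo + 99 * K) : (l.map (pr K)).Nodup := by
  apply List.Nodup.map_on _ hn
  intro x hx y hy hxy
  cases x with
  | none =>
    cases y with
    | none => rfl
    | some j => simp [pr] at hxy
  | some i =>
    cases y with
    | none => simp [pr] at hxy
    | some j =>
      rw [pr_some_eq] at hxy
      rw [cast_inj (hm i hx) (hm j hy) hxy]

theorem cyc_of_RO {K : ℕ} (hK : 1 ≤ K) (a b : Option ℕ) (t : List (Option ℕ))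
    (hab : pr K a = pr K b) (hc : (a :: t ++ [b]).IsChain RO) (lo : ℕ) (hn : (a :: t).Nodup)
    (hm : ∀ i, some i ∈ (a :: t) → lo ≤ i ∧ i < lo + 99 * K) (hl : 2 ≤ t.length)
    {u v : Option ℕ} (h : PairIn u v (a :: t ++ [b])) :
    Cyc (GK K) (t.length + 1) (pr K u) (pr K v) := by
  have hn' := nodup_map_pr (K := K) lo _ hn hm
  have e : (a :: t ++ [b]).map (pr K) = pr K a :: t.map (pr K) ++ [pr K a] := by
    simp [hab]
  have hc' : (pr K a :: t.map (pr K) ++ [pr K a]).IsChain (GK K).Adj := by
    rw [← e, List.isChain_map]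
    exact hc.imp (fun x y hxy => adj_of_RO hK hxy)
  have h' := h.map (pr K)
  rw [e] at h'
  have := cyc_of_closed (G := GK K) (pr K a) (t.map (pr K)) hc' (by simpa using hn') (by simpa using hl)
    h'
  simpa using this

theorem isChain_map_some {l : List ℕ} (h : l.IsChain Rr) : (l.map some).IsChain RO := by
  rw [List.isChain_map]
  exact h

/-- cycles inside a strip -/
theorem cyc_inner {K : ℕ} (hK : 1 ≤ K) {p q : ℕ} (h : adjLt p q = true) (s L : ℕ) (h3 : 3 ≤ L)
    (hL : L ≤ lam p q + 15) :
    Cyc (GK K) L (pr K (some (33 * s + p))) (pr K (some (33 * s + q))) := by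
  obtain ⟨a, t, h1, h2, h4, h5, h6⟩ := exists_inner h s L h3 hL
  have e : sh s (a :: t) ++ [33 * s + a] = (33 * s + a) :: sh s t ++ [33 * s + a] := by
    simp [sh]
  have e2 : sh s (a :: t) = (33 * s + a) :: sh s t := by simp [sh]
  have := cyc_of_RO hK (some (33 * s + a)) (some (33 * s + a)) ((sh s t).map some) rfl
    (by
      have := isChain_map_some h1
      rw [e] at this
      simpa using this) (33 * s)
    (by
      rw [e2] at h2
      have := h2.map (Option.some_injective ℕ)
      simpa using this)
    (by
      intro i hi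
      have hi' : i ∈ sh s (a :: t) := by
        rw [e2]; simpa using hi
      unfold sh at hi'
      rw [List.mem_map] at hi'
      obtain ⟨y, hy, rfl⟩ := hi'
      have := h5 y hy
      omega)
    (by
      simp only [List.length_cons] at h4
      simp only [List.length_map, sh]
      omega)
    (u := some (33 * s + p)) (v := some (33 * s + q))
    (by
      have := h6.map some
      rw [e] at this
      simpa using this)
  have hlen : ((sh s t).map some).length + 1 = L := by
    simp only [List.length_cons] at h4
    simp only [List.length_map, sh]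
    omega
  rwa [hlen] at this

/-- cycles through the hub -/
theorem cyc_hub {K : ℕ} (hK : 1 ≤ K) (g g' : ℕ) (h1 : g < g') (h2 : g' ≤ g + K) (X : List ℕ)
    (hX : OP Rr (33 * (3 * g + 1)) (99 * g') X) {u v : Option ℕ}
    (h : PairIn u v ((X ++ [99 * g']).map some) ∨ (u = none ∧ v = some (99 * g + 16)) ∨
      (u = none ∧ v = some (99 * g'))) :
    Cyc (GK K) (X.length + 4) (pr K u) (pr K v) := by
  have hch : ((99 * g + 16) :: (99 * g + 17) :: (X ++ [99 * g'])).IsChain Rr := by
    have h16 : Rr (99 * g + 16) (99 * g + 17) := ⟨3 * g, 16, 17, by decide, by ring, by ring⟩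
    have h17 : Rr (99 * g + 17) (33 * (3 * g + 1)) := ⟨3 * g, 17, 33, by decide, by ring, by ring⟩
    refine List.IsChain.cons_cons h16 ?_
    rw [List.isChain_cons]
    refine ⟨?_, hX.chain⟩
    intro y hy
    rw [hX.head] at hy
    simp only [Option.mem_def, Option.some.injEq] at hy
    rw [← hy]; exact h17
  have hlen : (((99 * g + 16) :: (99 * g + 17) :: (X ++ [99 * g'])).map some).length + 1 =
      X.length + 4 := by simp
  rw [← hlen]
  have hH16 : Hb (99 * g + 16) := ⟨g, Or.inr rfl⟩
  have hH0 : Hb (99 * g') := ⟨g', Or.inl rfl⟩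
  refine cyc_of_RO hK none none _ rfl ?_ (99 * g + 16) ?_ ?_ ?_ ?_
  · -- chain
    have hc1 := isChain_map_some hch
    rw [List.cons_append, List.isChain_cons]
    refine ⟨?_, ?_⟩
    · intro y hy
      simp only [List.map_cons, List.cons_append, List.head?_cons, Option.mem_def,
        Option.some.injEq] at hy
      rw [← hy]; exact hH16
    · refine List.IsChain.append hc1 (List.IsChain.singleton _) ?_
      intro x hx y hy
      simp only [List.head?_cons, Option.mem_def, Option.some.injEq] at hy
      subst hy
      have : (((99 * g + 16) :: (99 * g + 17) :: (X ++ [99 * g'])).map some).getLast? =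
          some (some (99 * g')) := by
        simp [List.getLast?_cons, List.getLast?_append]
      rw [this] at hx
      simp only [Option.mem_def, Option.some.injEq] at hx
      subst hx
      exact hH0
  · -- nodup
    rw [List.nodup_cons]
    refine ⟨by simp, ?_⟩
    apply List.Nodup.map (Option.some_injective ℕ)
    rw [List.nodup_cons, List.nodup_cons, List.nodup_append]
    refine ⟨?_, ?_, hX.nodup, by simp, ?_⟩
    · intro hm
      simp only [List.mem_cons, List.mem_append, List.not_mem_nil, or_false] at hm
      rcases hm with hm | hm | hm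
      · omega
      · have := hX.mem _ hm; omega
      · omega
    · intro hm
      simp only [List.mem_append, List.mem_cons, List.not_mem_nil, or_false] at hm
      rcases hm with hm | hm
      · have := hX.mem _ hm; omega
      · omega
    · intro x hx y hy
      simp only [List.mem_cons, List.not_mem_nil, or_false] at hy
      have := hX.mem _ hx
      omega
  · -- range
    intro i hi
    simp only [List.mem_cons, reduceCtorEq, List.mem_map, Option.some.injEq, exists_eq_right,
      false_or, List.mem_append, List.not_mem_nil, or_false] at hi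
    rcases hi with hi | hi | hi | hi
    · omega
    · omega
    · have := hX.mem _ hi; omega
    · omega
  · simp
  · rcases h with h | ⟨rfl, rfl⟩ | ⟨rfl, rfl⟩
    · refine h.mono ?_
      refine ⟨[none, some (99 * g + 16), some (99 * g + 17)], [none], ?_⟩
      simp
    · left
      refine ⟨[], ((99 * g + 17) :: (X ++ [99 * g'])).map some ++ [none], ?_⟩
      simp
    · right
      refine ⟨none :: ((99 * g + 16) :: (99 * g + 17) :: X).map some, [], ?_⟩
      simp

/-- cycles around the ring avoiding the hub -/
theorem cyc_ring {K : ℕ} (hK : 1 ≤ K) (a : ℕ) (X : List ℕ) (hX : OP Rr a (a + 99 * K) X)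
    (hl : 3 ≤ X.length) {i j : ℕ} (h : PairIn i j (X ++ [a + 99 * K])) :
    Cyc (GK K) X.length (pr K (some i)) (pr K (some j)) := by
  cases X with
  | nil => simp at hl
  | cons x t =>
    have hx : x = a := by
      have := hX.head
      simpa using this
    subst hx
    have hlen : (t.map some).length + 1 = (x :: t).length := by simp
    rw [← hlen]
    refine cyc_of_RO hK (some x) (some (x + 99 * K)) _ ?_ ?_ x ?_ ?_ ?_ ?_
    · rw [pr_some_eq]
      push_cast
      have : ((99 * K : ℕ) : ZMod (99 * K)) = 0 := ZMod.natCast_self _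
      push_cast at this
      rw [this, add_zero]
    · have := isChain_map_some hX.chain
      simpa using this
    · have := hX.nodup.map (Option.some_injective ℕ)
      simpa using this
    · intro i hi
      have hi' : i ∈ x :: t := by simpa using hi
      exact hX.mem i hi'
    · simp only [List.length_cons] at hl
      simp only [List.length_map]; omega
    · have := h.map some
      simpa using this

/-- the Hamiltonian path of a hub strip with the hub inserted after offset `0` -/
def WW : List ℕ := [16] ++ rg 1 16 ++ rg 17 33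

theorem WW_ok : chB (WW ++ [33]) = true ∧ ndB WW 0 = true ∧ (∀ x ∈ WW, 1 ≤ x ∧ x < 33) ∧
    WW.length = 32 ∧ WW.head? = some 16 := by decide +kernel

/-- cycles around the ring with the hub inserted -/
theorem cyc_insert {K : ℕ} (hK : 1 ≤ K) (g : ℕ) (Z : List ℕ)
    (hZ : OP Rr (33 * (3 * g + 1)) (99 * g + 99 * K) Z) {u v : Option ℕ}
    (h : PairIn u v ((Z ++ [99 * g + 99 * K]).map some) ∨ (u = none ∧ v = some (99 * g + 16)) ∨
      (u = none ∧ v = some (99 * g))) :
    Cyc (GK K) (Z.length + 34) (pr K u) (pr K v) := by
  obtain ⟨w1, w2, w3, w4, w5⟩ := WW_ok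
  have hW : OP Rr (33 * (3 * g) + 16) (33 * (3 * g + 1)) (sh (3 * g) WW) → True := fun _ => trivial
  have hch : (sh (3 * g) WW ++ (Z ++ [99 * g + 99 * K])).IsChain Rr := by
    obtain ⟨t, ht⟩ : ∃ t, Z ++ [99 * g + 99 * K] = 33 * (3 * g + 1) :: t := by
      have := hZ.head
      cases h : Z ++ [99 * g + 99 * K] with
      | nil => simp at h
      | cons x t => rw [h] at this; simp at this; exact ⟨t, by rw [this]⟩
    have h1 : (sh (3 * g) WW ++ [33 * (3 * g + 1)]).IsChain Rr := by
      have e : sh (3 * g) WW ++ [33 * (3 * g + 1)] = sh (3 * g) (WW ++ [33]) := by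
        simp [sh]; ring
      rw [e]
      exact sh_chain (chB_spec _ w1)
    have h2 := hZ.chain
    rw [ht] at h2 ⊢
    have := List.IsChain.append_overlap (l₁ := sh (3 * g) WW) (l₂ := [33 * (3 * g + 1)])
      (l₃ := t) h1 (by simpa using h2) (by simp)
    simpa using this
  have hhead : (sh (3 * g) WW).head? = some (99 * g + 16) := by
    unfold sh
    rw [List.head?_map, w5]
    simp; ring
  have hlen : (none :: ((sh (3 * g) WW ++ Z).map some)).length + 1 = Z.length + 34 := by
    simp only [List.length_cons, List.length_map, List.length_append, sh, w4]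
    omega
  have hWm : ∀ x ∈ sh (3 * g) WW, 99 * g < x ∧ x < 33 * (3 * g + 1) := by
    intro x hx
    unfold sh at hx
    rw [List.mem_map] at hx
    obtain ⟨y, hy, rfl⟩ := hx
    have := w3 y hy
    omega
  rw [← hlen]
  have hH16 : Hb (99 * g + 16) := ⟨g, Or.inr rfl⟩
  have hH0 : Hb (99 * g) := ⟨g, Or.inl rfl⟩
  refine cyc_of_RO hK (some (99 * g)) (some (99 * g + 99 * K)) _ ?_ ?_ (99 * g) ?_ ?_ ?_ ?_
  · rw [pr_some_eq]
    push_cast
    have : ((99 * K : ℕ) : ZMod (99 * K)) = 0 := ZMod.natCast_self _
    push_cast at this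
    rw [this, add_zero]
  · have hc1 := isChain_map_some hch
    have e : some (99 * g) :: none :: (sh (3 * g) WW ++ Z).map some ++ [some (99 * g + 99 * K)] =
        some (99 * g) :: none :: (sh (3 * g) WW ++ (Z ++ [99 * g + 99 * K])).map some := by
      simp
    rw [e]
    refine List.IsChain.cons_cons hH0 ?_
    rw [List.isChain_cons]
    refine ⟨?_, hc1⟩
    intro y hy
    have : ((sh (3 * g) WW ++ (Z ++ [99 * g + 99 * K])).map some).head? =
        some (some (99 * g + 16)) := by
      rw [List.head?_map, List.head?_append, hhead]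
      simp
    rw [this] at hy
    simp only [Option.mem_def, Option.some.injEq] at hy
    subst hy
    exact hH16
  · rw [List.nodup_cons, List.nodup_cons]
    refine ⟨?_, by simp, ?_⟩
    · intro hm
      simp only [List.mem_cons, reduceCtorEq, List.mem_map, Option.some.injEq, exists_eq_right,
        false_or, List.mem_append] at hm
      rcases hm with hm | hm
      · have := hWm _ hm; omega
      · have := hZ.mem _ hm; omega
    · apply List.Nodup.map (Option.some_injective ℕ)
      rw [List.nodup_append]
      refine ⟨sh_nodup (ndB_spec _ _ w2).1, hZ.nodup, ?_⟩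
      intro x hx y hy
      have := hWm _ hx
      have := hZ.mem _ hy
      omega
  · intro i hi
    simp only [List.mem_cons, reduceCtorEq, List.mem_map, Option.some.injEq, exists_eq_right,
      false_or, List.mem_append] at hi
    rcases hi with hi | hi | hi
    · omega
    · have := hWm _ hi; omega
    · have := hZ.mem _ hi; omega
  · simp only [List.length_cons, List.length_map, List.length_append, sh, w4]
    omega
  · rcases h with h | ⟨rfl, rfl⟩ | ⟨rfl, rfl⟩
    · refine h.mono ?_
      refine ⟨some (99 * g) :: none :: (sh (3 * g) WW).map some, [], ?_⟩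
      simp
    · left
      cases hw : sh (3 * g) WW with
      | nil => rw [hw] at hhead; simp at hhead
      | cons x t =>
        rw [hw] at hhead
        simp only [List.head?_cons, Option.some.injEq] at hhead
        subst hhead
        refine ⟨[some (99 * g)], (t ++ Z).map some ++ [some (99 * g + 99 * K)], ?_⟩
        simp
    · right
      refine ⟨[], (sh (3 * g) WW ++ Z).map some ++ [some (99 * g + 99 * K)], ?_⟩
      simp

end Pool.Agent.EdgePan
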