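import Mathlib
import Pool.Agent.EdgePan.Ring

set_option autoImplicit false

namespace Pool.Agent.EdgePan

open SimpleGraph

theorem exists_through' {p q : ℕ} (h : adjLt p q = true) (s0 s s1 l : ℕ) (h0 : s0 ≤ s)
    (h1 : s + 1 ≤ s1) (hl : lam p q + 3 * (s1 - s0 - 1) ≤ l) (hl' : l ≤ 33 * (s1 - s0)) :
    ∃ X, OP Rr (33 * s0) (33 * s1) X ∧ X.length = l ∧
      PairIn (33 * s + p) (33 * s + q) (X ++ [33 * s1]) := by
  have hb := lam_bounds (p, q) (mem_edgesS h)
  simp only at hb
  obtain ⟨a, rfl⟩ := Nat.exists_eq_add_of_le h0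
  obtain ⟨b, rfl⟩ := Nat.exists_eq_add_of_le h1
  -- lengths
  obtain ⟨x, y, z, hx1, hx2, hy1, hy2, hz1, hz2, hsum⟩ : ∃ x y z, 3 * a ≤ x ∧ x ≤ 33 * a ∧
      lam p q ≤ y ∧ y ≤ 33 ∧ 3 * b ≤ z ∧ z ≤ 33 * b ∧ x + y + z = l := by
    refine ⟨max (3 * a) (l - max (lam p q) (l - 33 * (a + b)) - 33 * b),
      max (lam p q) (l - 33 * (a + b)),
      l - max (lam p q) (l - 33 * (a + b)) -
        max (3 * a) (l - max (lam p q) (l - 33 * (a + b)) - 33 * b), ?_, ?_, ?_, ?_, ?_, ?_, ?_⟩
    all_goals omega
  obtain ⟨B, hB, hBl⟩ := exists_strips s0 a x hx1 hx2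
  obtain ⟨E, hE, hEl, hEp⟩ := exists_through h (s0 + a) y hy1 hy2
  obtain ⟨A, hA, hAl⟩ := exists_strips (s0 + a + 1) b z hz1 hz2
  refine ⟨B ++ (E ++ A), hB.append (hE.append hA), ?_, ?_⟩
  · simp only [List.length_append]
    omega
  · refine hEp.mono ?_
    obtain ⟨t, ht⟩ : ∃ t, A ++ [33 * (s0 + a + 1 + b)] = 33 * (s0 + a + 1) :: t := by
      have := hA.head
      cases h : A ++ [33 * (s0 + a + 1 + b)] with
      | nil => simp at h
      | cons x t => rw [h] at this; simp at this; exact ⟨t, by rw [this]⟩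
    refine ⟨B, t, ?_⟩
    have : B ++ (E ++ A) ++ [33 * (s0 + a + 1 + b)] =
        B ++ (E ++ (A ++ [33 * (s0 + a + 1 + b)])) := by simp
    rw [this, ht]
    simp

theorem cyc_rim {K : ℕ} (hK : 2 ≤ K) {p q : ℕ} (h : adjLt p q = true) (s : ℕ) (hs : 3 ≤ s)
    (L : ℕ) (h3 : 3 ≤ L) (hL : L ≤ 99 * K + 1) :
    Cyc (GK K) L (pr K (some (33 * s + p))) (pr K (some (33 * s + q))) := by
  have hb := lam_bounds (p, q) (mem_edgesS h)
  simp only at hb
  by_cases hc1 : L ≤ lam p q + 15
  · exact cyc_inner (by omega) h s L h3 hc1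
  by_cases hc2 : L + 4 ≤ lam p q + 9 * K
  · -- arcs through the hub
    obtain ⟨t, ht⟩ : ∃ t, t = (L - 16 - lam p q) / 9 := ⟨_, rfl⟩
    obtain ⟨X, hX, hXl, hXp⟩ := exists_through' h (3 * (s / 3 - 1) + 1) s (3 * (s / 3 + 1 + t))
      (L - 4) (by omega) (by omega) (by omega) (by omega)
    have e1 : 33 * (3 * (s / 3 + 1 + t)) = 99 * (s / 3 + 1 + t) := by ring
    rw [e1] at hX hXp
    have := cyc_hub (K := K) (by omega) (s / 3 - 1) (s / 3 + 1 + t) (by omega) (by omega) X hX
      (u := some (33 * s + p)) (v := some (33 * s + q)) (Or.inl (hXp.map some))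
    have e2 : X.length + 4 = L := by omega
    rwa [e2] at this
  by_cases hc3 : L ≤ 99 * K
  · obtain ⟨X, hX, hXl, hXp⟩ := exists_through' h s s (s + 3 * K) L le_rfl (by omega)
      (by omega) (by omega)
    have e1 : 33 * (s + 3 * K) = 33 * s + 99 * K := by ring
    rw [e1] at hX hXp
    have := cyc_ring (K := K) (by omega) (33 * s) X hX (by omega) hXp
    rwa [hXl] at this
  · have hLe : L = 99 * K + 1 := by omega
    obtain ⟨X, hX, hXl, hXp⟩ := exists_through' h (3 * (s / 3 - 1) + 1) s
      (3 * (s / 3 - 1) + 3 * K) (99 * K - 33) (by omega) (by omega) (by omega) (by omega)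
    have e1 : 33 * (3 * (s / 3 - 1) + 3 * K) = 99 * (s / 3 - 1) + 99 * K := by ring
    rw [e1] at hX hXp
    have := cyc_insert (K := K) (by omega) (s / 3 - 1) X hX
      (u := some (33 * s + p)) (v := some (33 * s + q)) (Or.inl (hXp.map some))
    have e2 : X.length + 34 = L := by omega
    rwa [e2] at this

/-- short cycles through both hub edges of a hub strip -/
theorem cyc_hub_inner {K : ℕ} (hK : 1 ≤ K) (g L : ℕ) (h3 : 3 ≤ L) (hL : L ≤ 35) (x : ℕ)
    (hx : x = 99 * g ∨ x = 99 * g + 16) :
    Cyc (GK K) L (pr K none) (pr K (some x)) := by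
  obtain ⟨t, h1, h2, h4, h5, h6⟩ := exists_hubPath (3 * g) (L - 1) (by omega) (by omega)
  have e0 : 33 * (3 * g) = 99 * g := by ring
  rw [e0] at h1 h2 h4 h5 h6
  have hH16 : Hb (99 * g + 16) := ⟨g, Or.inr rfl⟩
  have hH0 : Hb (99 * g) := ⟨g, Or.inl rfl⟩
  have hlen : ((99 * g :: t).map some).length + 1 = L := by
    rw [List.length_map]; omega
  rw [← hlen]
  have hlast : ((99 * g :: t).map some).getLast? = some (some (99 * g + 16)) := by
    rw [List.getLast?_map, h6]; rfl
  refine cyc_of_RO hK none none _ rfl ?_ (99 * g) ?_ ?_ ?_ ?_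
  · rw [List.cons_append, List.isChain_cons]
    refine ⟨?_, ?_⟩
    · intro y hy
      simp only [List.map_cons, List.cons_append, List.head?_cons, Option.mem_def,
        Option.some.injEq] at hy
      rw [← hy]; exact hH0
    · refine List.IsChain.append (isChain_map_some h1) (List.IsChain.singleton _) ?_
      intro x hx y hy
      simp only [List.head?_cons, Option.mem_def, Option.some.injEq] at hy
      subst hy
      rw [hlast] at hx
      simp only [Option.mem_def, Option.some.injEq] at hx
      subst hx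
      exact hH16
  · rw [List.nodup_cons]
    exact ⟨by simp, h2.map (Option.some_injective ℕ)⟩
  · intro i hi
    have hi' : i ∈ 99 * g :: t := by simpa using hi
    have := h5 i hi'
    omega
  · rw [List.length_map]; omega
  · rcases hx with rfl | rfl
    · left
      refine ⟨[], t.map some ++ [none], ?_⟩
      simp
    · right
      have : ∃ w, (99 * g :: t).map some = w ++ [some (99 * g + 16)] := by
        have := List.getLast?_eq_some_iff.1 hlast
        obtain ⟨w, hw⟩ := this
        exact ⟨w, hw⟩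
      obtain ⟨w, hw⟩ := this
      refine ⟨none :: w, [], ?_⟩
      rw [hw]; simp

theorem cyc_hub_edge {K : ℕ} (hK : 2 ≤ K) (g : ℕ) (hg : K ≤ g) (L : ℕ) (h3 : 3 ≤ L)
    (hL : L ≤ 99 * K + 1) (x : ℕ) (hx : x = 99 * g ∨ x = 99 * g + 16) :
    Cyc (GK K) L (pr K none) (pr K (some x)) := by
  by_cases hc1 : L ≤ 35
  · exact cyc_hub_inner (by omega) g L h3 hc1 x hx
  by_cases hc2 : L ≤ 9 * K + 30
  · obtain ⟨t, ht⟩ : ∃ t, t = (L + 28) / 99 := ⟨_, rfl⟩
    rcases hx with rfl | rfl
    · -- right end
      obtain ⟨X, hX, hXl⟩ := exists_strips (3 * (g - 1 - t) + 1) (3 * t + 2) (L - 4)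
        (by omega) (by omega)
      have e1 : 33 * (3 * (g - 1 - t) + 1 + (3 * t + 2)) = 99 * g := by omega
      rw [e1] at hX
      have := cyc_hub (K := K) (by omega) (g - 1 - t) g (by omega) (by omega) X hX
        (u := none) (v := some (99 * g)) (Or.inr (Or.inr ⟨rfl, rfl⟩))
      have e2 : X.length + 4 = L := by omega
      rwa [e2] at this
    · obtain ⟨X, hX, hXl⟩ := exists_strips (3 * g + 1) (3 * t + 2) (L - 4)
        (by omega) (by omega)
      have e1 : 33 * (3 * g + 1 + (3 * t + 2)) = 99 * (g + 1 + t) := by omega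
      rw [e1] at hX
      have := cyc_hub (K := K) (by omega) g (g + 1 + t) (by omega) (by omega) X hX
        (u := none) (v := some (99 * g + 16)) (Or.inr (Or.inl ⟨rfl, rfl⟩))
      have e2 : X.length + 4 = L := by omega
      rwa [e2] at this
  · obtain ⟨X, hX, hXl⟩ := exists_strips (3 * g + 1) (3 * K - 1) (L - 34)
      (by omega) (by omega)
    have e1 : 33 * (3 * g + 1 + (3 * K - 1)) = 99 * g + 99 * K := by omega
    rw [e1] at hX
    have := cyc_insert (K := K) (by omega) g X hX
      (u := none) (v := some x) (by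
        rcases hx with rfl | rfl
        · exact Or.inr (Or.inr ⟨rfl, rfl⟩)
        · exact Or.inr (Or.inl ⟨rfl, rfl⟩))
    have e2 : X.length + 34 = L := by omega
    rwa [e2] at this

theorem pr_shift (K i : ℕ) : pr K (some i) = pr K (some (i + 99 * K)) := by
  rw [pr_some_eq]
  push_cast
  have : ((99 * K : ℕ) : ZMod (99 * K)) = 0 := ZMod.natCast_self _
  push_cast at this
  rw [this, add_zero]

theorem cyc_RO {K : ℕ} (hK : 2 ≤ K) {a b : Option ℕ} (h : RO a b) (L : ℕ) (h3 : 3 ≤ L)
    (hL : L ≤ 99 * K + 1) : Cyc (GK K) L (pr K a) (pr K b) := by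
  have hub : ∀ i, Hb i → Cyc (GK K) L (pr K none) (pr K (some i)) := by
    rintro i ⟨g, hg⟩
    rw [pr_shift]
    exact cyc_hub_edge hK (g + K) (by omega) L h3 hL _ (by omega)
  cases a with
  | none =>
    cases b with
    | none => exact absurd h (by simp [RO])
    | some j => exact hub j h
  | some i =>
    cases b with
    | none => exact (hub i h).symm
    | some j =>
      obtain ⟨s, p, q, h1, rfl, rfl⟩ := h
      have e : ∀ x, 33 * s + x + 99 * K = 33 * (s + 3 * K) + x := by intro x; ring
      rw [pr_shift K (33 * s + p), pr_shift K (33 * s + q), e, e]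
      unfold adjS at h1
      rw [Bool.or_eq_true] at h1
      rcases h1 with h1 | h1
      · exact cyc_rim hK h1 _ (by omega) L h3 hL
      · exact (cyc_rim hK h1 _ (by omega) L h3 hL).symm

/-- Every edge of `GK K` lies on a cycle of every length `3, …, 99 K + 1`. -/
theorem GK_cycles {K : ℕ} (hK : 2 ≤ K) (L : ℕ) (h3 : 3 ≤ L) (hL : L ≤ 99 * K + 1)
    (e : Sym2 (Option (ZMod (99 * K)))) (he : e ∈ (GK K).edgeSet) :
    ∃ (w : _) (c : (GK K).Walk w w), c.IsCycle ∧ c.length = L ∧ e ∈ c.edges := by
  induction e with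
  | _ x y =>
    rw [SimpleGraph.mem_edgeSet] at he
    obtain ⟨-, a, b, h, rfl, rfl⟩ := he
    exact cyc_RO hK h L h3 hL

/-- the set containing all edges -/
def edgeFin (K : ℕ) : Finset (Sym2 (Option (ZMod (99 * K)))) :=
  ((Finset.range (3 * K) ×ˢ edgesS.toFinset).image
      fun x => s(pr K (some (33 * x.1 + x.2.1)), pr K (some (33 * x.1 + x.2.2)))) ∪
    ((Finset.range K ×ˢ ({0, 16} : Finset ℕ)).image
      fun x => s(pr K none, pr K (some (99 * x.1 + x.2))))

theorem card_edgeFin (K : ℕ) : (edgeFin K).card ≤ 197 * K := by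
  unfold edgeFin
  refine (Finset.card_union_le _ _).trans ?_
  have h1 : ((Finset.range (3 * K) ×ˢ edgesS.toFinset).image
      fun x => s(pr K (some (33 * x.1 + x.2.1)), pr K (some (33 * x.1 + x.2.2)))).card ≤
      3 * K * 65 := by
    refine Finset.card_image_le.trans ?_
    rw [Finset.card_product, Finset.card_range]
    have : edgesS.toFinset.card ≤ 65 := by
      refine (List.toFinset_card_le _).trans ?_
      rw [card_edgesS]
    exact Nat.mul_le_mul_left _ this
  have h2 : ((Finset.range K ×ˢ ({0, 16} : Finset ℕ)).image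
      fun x => s(pr K none, pr K (some (99 * x.1 + x.2)))).card ≤ K * 2 := by
    refine Finset.card_image_le.trans ?_
    rw [Finset.card_product, Finset.card_range]
    exact Nat.mul_le_mul_left _ (by decide)
  omega

theorem pr_mod (K s x : ℕ) : pr K (some (33 * s + x)) = pr K (some (33 * (s % (3 * K)) + x)) := by
  rw [pr_some_eq, ZMod.natCast_eq_natCast_iff]
  have h := Nat.div_add_mod s (3 * K)
  have : 33 * s + x = 33 * (s % (3 * K)) + x + (99 * K) * (s / (3 * K)) := by
    conv_lhs => rw [← h]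
    ring
  rw [this]
  unfold Nat.ModEq
  rw [Nat.add_mul_mod_self_left]

theorem edgeSet_sub {K : ℕ} (hK : 1 ≤ K) : (GK K).edgeSet ⊆ (edgeFin K : Set _) := by
  intro e he
  induction e with
  | _ x y =>
    rw [SimpleGraph.mem_edgeSet] at he
    obtain ⟨-, a, b, h, rfl, rfl⟩ := he
    have hub : ∀ i, Hb i → s(pr K none, pr K (some i)) ∈ (edgeFin K : Set _) := by
      rintro i ⟨g, hg⟩
      rw [Finset.mem_coe]
      unfold edgeFin
      rw [Finset.mem_union]
      right
      rw [Finset.mem_image]
      have key : ∀ c, pr K (some (99 * g + c)) = pr K (some (99 * (g % K) + c)) := by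
        intro c
        rw [pr_some_eq, ZMod.natCast_eq_natCast_iff]
        have h := Nat.div_add_mod g K
        have : 99 * g + c = 99 * (g % K) + c + (99 * K) * (g / K) := by
          conv_lhs => rw [← h]
          ring
        rw [this]
        unfold Nat.ModEq
        rw [Nat.add_mul_mod_self_left]
      rcases hg with rfl | rfl
      · refine ⟨(g % K, 0), ?_, ?_⟩
        · rw [Finset.mem_product, Finset.mem_range]
          exact ⟨Nat.mod_lt _ (by omega), by simp⟩
        · have := key 0
          simp only [Nat.add_zero] at this ⊢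
          rw [this]
      · refine ⟨(g % K, 16), ?_, ?_⟩
        · rw [Finset.mem_product, Finset.mem_range]
          exact ⟨Nat.mod_lt _ (by omega), by simp⟩
        · rw [key 16]
    cases a with
    | none =>
      cases b with
      | none => exact absurd h (by simp [RO])
      | some j => exact hub j h
    | some i =>
      cases b with
      | none => rw [Sym2.eq_swap]; exact hub i h
      | some j =>
        obtain ⟨s, p, q, h1, rfl, rfl⟩ := h
        have main : ∀ p q, adjLt p q = true →
            s(pr K (some (33 * s + p)), pr K (some (33 * s + q))) ∈ (edgeFin K : Set _) := by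
          intro p q h1
          rw [Finset.mem_coe]
          unfold edgeFin
          rw [Finset.mem_union]
          left
          rw [Finset.mem_image]
          refine ⟨(s % (3 * K), (p, q)), ?_, ?_⟩
          · rw [Finset.mem_product, Finset.mem_range, List.mem_toFinset]
            exact ⟨Nat.mod_lt _ (by omega), mem_edgesS h1⟩
          · rw [pr_mod K s p, pr_mod K s q]
        unfold adjS at h1
        rw [Bool.or_eq_true] at h1
        rcases h1 with h1 | h1
        · exact main p q h1
        · rw [Sym2.eq_swap]; exact main q p h1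

theorem ncard_edgeSet {K : ℕ} (hK : 1 ≤ K) : (GK K).edgeSet.ncard ≤ 197 * K := by
  refine (Set.ncard_le_ncard (edgeSet_sub hK) (Finset.finite_toSet _)).trans ?_
  rw [Set.ncard_coe_finset]
  exact card_edgeFin K

end Pool.Agent.EdgePan
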